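import Pool.Agent.P.MP_0bef39_lc.Key
import Pool.Agent.P.MP_0bef39_lc.Coding

namespace Pool.Agent.Results.MP_0bef39_lc.BanachLie

open Set Metric Filter Topology MeasureTheory Pool.Agent.P.MP_0bef39_lc

universe u

theorem result (X : Type u) [NormedAddCommGroup X] [NormedSpace ℝ X] [CompleteSpace X]
    [TopologicalSpace.SeparableSpace X] (Γ : AddSubgroup X) [DiscreteTopology Γ]
    (A : AddSubgroup (X ⧸ Γ)) (hA : IsClosed (A : Set (X ⧸ Γ)))
    (hlc : ¬ LocallyCompactSpace A) :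
    ∃ (Y : Type u) (_ : TopologicalSpace Y) (_ : CompactSpace Y)
      (_ : TopologicalSpace.MetrizableSpace Y) (_ : AddAction A Y),
      ContinuousVAdd A Y ∧
      (∀ D : Set (ℕ → ℕ), AnalyticSet D → ∃ f : (ℕ → ℕ) → Y × Y, Continuous f ∧
        D = f ⁻¹' {p : Y × Y | ∃ g : A, g +ᵥ p.1 = p.2}) ∧
      ¬ @MeasurableSet (Y × Y) (borel (Y × Y)) {p : Y × Y | ∃ g : A, g +ᵥ p.1 = p.2} := by
  let G : AddSubgroup X := A.comap (QuotientAddGroup.mk' Γ)
  have hmk : Continuous ((↑) : X → X ⧸ Γ) := QuotientAddGroup.continuous_mk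
  have hGc : IsClosed (G : Set X) := hA.preimage hmk
  have hG : ∀ r, 0 < r → ¬ TotallyBounded ((G : Set X) ∩ ball 0 r) := by
    intro r hr htb
    apply hlc
    have h1 : IsCompact ((G : Set X) ∩ closedBall 0 (r / 2)) :=
      (htb.subset (inter_subset_inter_right _ (closedBall_subset_ball (half_lt_self hr)))).isCompact_of_isClosed
        (hGc.inter isClosed_closedBall)
    have h2 : IsCompact (((↑) : A → X ⧸ Γ) ⁻¹'
        (((↑) : X → X ⧸ Γ) '' ((G : Set X) ∩ closedBall 0 (r / 2)))) :=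
      hA.isClosedEmbedding_subtypeVal.isCompact_preimage (h1.image hmk)
    refine h2.locallyCompactSpace_of_mem_nhds_of_addGroup (x := 0) ?_
    refine mem_of_superset (ball_mem_nhds 0 (half_pos hr)) fun a ha => ?_
    have h3 : ‖(a : X ⧸ Γ)‖ < r / 2 := by simpa using ha
    obtain ⟨m, hm1, hm2⟩ := QuotientAddGroup.norm_lt_iff.mp h3
    refine ⟨m, ⟨?_, by simpa using hm2.le⟩, hm1⟩
    change (m : X ⧸ Γ) ∈ A
    rw [hm1]
    exact a.2
  obtain ⟨κ, hκ0, hκ⟩ : ∃ κ : ℝ, 0 < κ ∧ ∀ γ ∈ Γ, ‖γ‖ < κ → γ = 0 := by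
    obtain ⟨κ, h1, h2⟩ := Metric.isOpen_iff.mp (isOpen_discrete ({0} : Set Γ)) 0 rfl
    refine ⟨κ, h1, fun γ hγ h3 => ?_⟩
    have h4 : (⟨γ, hγ⟩ : Γ) ∈ ball (0 : Γ) κ := by simpa using h3
    exact congrArg Subtype.val (h2 h4)
  let e : List ℕ ≃ ℕ := Denumerable.eqv (List ℕ)
  let ρ : ℕ → ℝ := fun n => κ / 32 / 2 ^ n
  have hρ : ∀ n, 0 < ρ n := fun n => by positivity
  have hρa : Antitone ρ := fun m n h => by
    simp only [ρ]
    gcongr
    norm_num
  obtain ⟨y, hy1, hy2, hy3⟩ := key G Γ hGc hG (ρ := fun j => ρ (e.symm j).length)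
    (fun j => hρ _) (fun j => by simpa [ρ] using hρa (Nat.zero_le (e.symm j).length)) hκ
  let φ : G →+ A := (QuotientAddGroup.mk' Γ).addSubgroupComap A
  have hφ : Continuous φ := (hmk.comp continuous_subtype_val).subtype_mk _
  let y' : List ℕ → A := fun σ => φ ⟨y (e σ), hy1 _⟩
  have hsep : TopologicalSpace.SeparableSpace A := by
    have : TopologicalSpace.SeparableSpace (X ⧸ Γ) :=
      QuotientAddGroup.mk_surjective.denseRange.separableSpace hmk
    have : SecondCountableTopology (X ⧸ Γ) :=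
      UniformSpace.secondCountable_of_separable _
    infer_instance
  have hcod : ∀ D : Set (ℕ → ℕ), AnalyticSet D → ∃ f : (ℕ → ℕ) → LipSeq A × LipSeq A,
      Continuous f ∧ D = f ⁻¹' {p | ∃ g : A, g +ᵥ p.1 = p.2} := by
    intro D hD
    refine coding y' (fun n => ρ n / 8) (fun n => by linarith [hρ n])
      (fun m n h => by linarith [hρa h]) (fun a σ hσ => ?_) (fun β => ?_) hD
    · have h1 := hy3 (a.equivMapDomain e) (e σ) (by simpa using hσ)
      rw [Finsupp.sum_equivMapDomain, Equiv.symm_apply_apply] at h1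
      have h2 : ((Finsupp.linearCombination ℤ y' a : A) : X ⧸ Γ) =
          ((a.sum fun τ c => c • y (e τ) : X) : X ⧸ Γ) := by
        rw [Finsupp.linearCombination_apply, Finsupp.sum, Finsupp.sum,
          AddSubgroup.val_finsetSum, QuotientAddGroup.mk_sum]
        rfl
      change _ ≤ ‖((Finsupp.linearCombination ℤ y' a : A) : X ⧸ Γ)‖
      rw [h2, QuotientAddGroup.le_norm_iff]
      intro m hm
      have h3 := h1 _ (QuotientAddGroup.eq.mp hm)
      rwa [show (a.sum fun τ c => c • y (e τ)) - (-m + a.sum fun τ c => c • y (e τ)) = m by abel]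
        at h3
    · have : CompleteSpace G := hGc.completeSpace_coe
      have h1 : Summable fun m => (⟨y (e (PiNat.res β (m + 1))), hy1 _⟩ : G) := by
        refine Summable.of_norm_bounded (summable_geometric_two' (4 * (κ / 32))) fun m => ?_
        have h2 := hy2 (e (PiNat.res β (m + 1)))
        simp only [Equiv.symm_apply_apply, PiNat.res_length, ρ] at h2
        refine le_trans h2 (le_of_eq ?_)
        ring
      exact ⟨_, (h1.hasSum.map φ hφ).tendsto_sum_nat⟩
  refine ⟨LipSeq A, inferInstance, inferInstance, LipSeq.metrizable, inferInstance, inferInstance,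
    hcod, fun hE => ?_⟩
  obtain ⟨D, hD1, hD2⟩ := exists_analytic_not_borel
  obtain ⟨f, hf, rfl⟩ := hcod D hD1
  exact hD2 (hf.borel_measurable hE)

end Pool.Agent.Results.MP_0bef39_lc.BanachLie
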