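import Pool.Agent.P.MP_0bef39_lc.FSpace

namespace Pool.Agent.Results.MP_0bef39_lc.FSpaceSubgroup

open MeasureTheory Pool.Agent.P.MP_0bef39_lc

universe u

theorem result (X : Type u) [AddCommGroup X] [Module ℝ X] [UniformSpace X] [IsUniformAddGroup X]
    [ContinuousSMul ℝ X] [T2Space X] [SecondCountableTopology X] [CompleteSpace X]
    (G : AddSubgroup X) (hG : IsClosed (G : Set X)) (hlc : ¬ LocallyCompactSpace G)
    (hX : SeparatingDual ℝ X ∨
      ∀ Z : Submodule ℝ X, IsClosed (Z : Set X) → (Z : Set X) ⊆ G → ¬ FiniteDimensional ℝ Z →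
        ∃ W : Submodule ℝ X, IsClosed (W : Set X) ∧ W < Z ∧ ¬ FiniteDimensional ℝ W) :
    ∃ (Y : Type u) (_ : TopologicalSpace Y) (_ : CompactSpace Y)
      (_ : TopologicalSpace.MetrizableSpace Y) (_ : AddAction G Y),
      ContinuousVAdd G Y ∧
      (∀ D : Set (ℕ → ℕ), AnalyticSet D → ∃ f : (ℕ → ℕ) → Y × Y, Continuous f ∧
        D = f ⁻¹' {p : Y × Y | ∃ g : G, g +ᵥ p.1 = p.2}) ∧
      ¬ @MeasurableSet (Y × Y) (borel (Y × Y)) {p : Y × Y | ∃ g : G, g +ᵥ p.1 = p.2} := by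
  refine main_tvs G hG hlc ?_
  rcases hX with h | h
  · exact fun Z h1 _ h2 => not_atomic_of_separatingDual Z h1 h2
  · exact h

end Pool.Agent.Results.MP_0bef39_lc.FSpaceSubgroup
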