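import Pool.Agent.P.MP_0bef39_lc.Tame

namespace Pool.Agent.Results.MP_0bef39_lc.TameNSS

open Topology Pool.Agent.P.MP_0bef39_lc

/-- Every jointly Borel action of `A` on a standard Borel space has a Borel orbit relation. -/
def IsTame (A : Type) [AddCommGroup A] [TopologicalSpace A] : Prop :=
  ∀ (X : Type) [mX : MeasurableSpace X] [StandardBorelSpace X] [AddAction A X],
    @Measurable (A × X) X (MeasurableSpace.comap Prod.fst (borel A) ⊔
      MeasurableSpace.comap Prod.snd mX) mX (fun p => p.1 +ᵥ p.2) →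
    MeasurableSet {p : X × X | ∃ g : A, g +ᵥ p.1 = p.2}

/-- `A` is not locally compact, has no small subgroups, is monothetic and is tame. -/
def IsExotic (A : Type) [AddCommGroup A] [TopologicalSpace A] : Prop :=
  ¬ LocallyCompactSpace A ∧
    (∃ U ∈ 𝓝 (0 : A), ∀ H : AddSubgroup A, (H : Set A) ⊆ U → H = ⊥) ∧
    (∃ a : A, Dense (AddSubgroup.zmultiples a : Set A)) ∧ IsTame A

/-- Some closed subgroup of a quotient of `E` by a discrete subgroup is exotic. -/
def HasExoticSubquotient (E : Type) [AddCommGroup E] [TopologicalSpace E] : Prop :=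
  ∃ (Γ : AddSubgroup E) (A : AddSubgroup (E ⧸ Γ)),
    DiscreteTopology Γ ∧ IsClosed (A : Set (E ⧸ Γ)) ∧ IsExotic A

theorem result : HasExoticSubquotient (ℕ → lp (fun _ : ℕ => ℝ) 2) :=
  ⟨Ga, AA, discrete_Ga, isClosed_AA, not_lc, nss, monothetic, tame⟩

end Pool.Agent.Results.MP_0bef39_lc.TameNSS
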