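import Pool.Agent.P.MP_0bef39_lc.U.Main

namespace Pool.Agent.Results.MP_0bef39_lc.UnitaryThreshold

open Pool.Agent.P.MP_0bef39_lc.U

/-- Every strongly continuous unitary representation of the additive topological group `G` on a
separable complex Hilbert space has a Borel orbit equivalence relation on vectors. -/
def UnitarilyTame (G : Type) [AddCommGroup G] [TopologicalSpace G] : Prop :=
  ∀ (H : Type) [NormedAddCommGroup H] [InnerProductSpace ℂ H] [CompleteSpace H]
    [TopologicalSpace.SeparableSpace H] (π : Multiplicative G →* (H ≃ₗᵢ[ℂ] H)),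
    (∀ ξ : H, Continuous fun x : G => π (Multiplicative.ofAdd x) ξ) →
    @MeasurableSet (H × H) (borel (H × H)) {q | ∃ x : G, π (Multiplicative.ofAdd x) q.1 = q.2}

/-- For `1 ≤ p < ∞`: the additive group of real `ℓ^p` is unitarily tame if and only if `2 < p`. -/
theorem result (p : ENNReal) [Fact (1 ≤ p)] (hp : p ≠ ⊤) :
    UnitarilyTame (lp (fun _ : ℕ => ℝ) p) ↔ 2 < p := by
  constructor
  · intro h
    by_contra hp2
    have hp3 : p ≤ 2 := not_lt.mp hp2
    refine not_borel_rep hp3 (h HH (MonoidHom.mk' (fun x => (rep hp3).U x.toAdd) fun x y => ?_)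
      (continuous_rep hp3))
    ext1 v
    exact (rep hp3).add _ _ v
  · intro hp2 H _ _ _ _ π hc
    exact borel_orbit hp hp2 ⟨fun x => π (Multiplicative.ofAdd x), fun x y v => by
      rw [ofAdd_add, map_mul]; rfl⟩ hc

end Pool.Agent.Results.MP_0bef39_lc.UnitaryThreshold
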